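import Pool.Agent.Helper30.EL.St

/-!
# Project EL: module DIS (discriminants whose product is a square)
-/

set_option autoImplicit false

namespace Pool.Agent.Helper21.EL

open Pool.Agent.Helper30.EL

private lemma ndvd {n c l : ℕ} (hl : l.Prime) (hc : Nat.Coprime c (2 * n))
    (h : l ∣ 3 * c + 8 * n) : ¬ l ∣ c := by
  intro hlc
  have h1 : l ∣ 8 * n := (Nat.dvd_add_right (Dvd.dvd.mul_left hlc 3)).1 h
  have h2 : l ∣ 2 * n := by
    rcases (Nat.Prime.dvd_mul hl).1 h1 with h3 | h3
    · have h4 : l ∣ 2 ^ 3 := by simpa using h3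
      exact Dvd.dvd.mul_right (hl.dvd_of_dvd_pow h4) n
    · exact Dvd.dvd.mul_left h3 2
  have h5 := Nat.dvd_gcd hlc h2
  rw [hc] at h5
  exact hl.one_lt.ne' (Nat.dvd_one.1 h5)

private lemma odd_dvd {l c e v D' : ℕ} (hl : l.Prime) (hle : l ∣ e) (he : Squarefree e)
    (hlc : ¬ l ∣ c) (hc : c ≠ 0) (hv : v ≠ 0) (hD : D' ≠ 0)
    (hs : IsSquare (c * (v ^ 2 * e) * D')) : l ∣ D' := by
  by_contra hlD
  obtain ⟨s, hs⟩ := hs
  have he0 : e ≠ 0 := he.ne_zero
  have hs0 : s ≠ 0 := by
    rintro rfl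
    simp only [mul_zero, mul_eq_zero] at hs
    rcases hs with (h | h) | h
    · exact hc h
    · rcases h with h | h
      · exact hv (pow_eq_zero_iff (by norm_num) |>.1 h)
      · exact he0 h
    · exact hD h
  have h1 := congrArg (fun m : ℕ => m.factorization l) hs
  rw [Nat.factorization_mul (mul_ne_zero hc (mul_ne_zero (pow_ne_zero 2 hv) he0)) hD,
    Nat.factorization_mul hc (mul_ne_zero (pow_ne_zero 2 hv) he0),
    Nat.factorization_mul (pow_ne_zero 2 hv) he0, Nat.factorization_pow,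
    Nat.factorization_mul hs0 hs0] at h1
  simp only [Finsupp.coe_add, Pi.add_apply, Finsupp.coe_smul, Pi.smul_apply, smul_eq_mul] at h1
  have h2 : e.factorization l = 1 := by
    have a1 := he.natFactorization_le_one l
    have a2 := hl.factorization_pos_of_dvd he0 hle
    omega
  have h3 : c.factorization l = 0 := Nat.factorization_eq_zero_of_not_dvd hlc
  have h4 : D'.factorization l = 0 := Nat.factorization_eq_zero_of_not_dvd hlD
  omega

theorem hDIS : StDIS := by
  intro n c c' L hn hc hc' hne h1 h1' hL hL' hsq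
  obtain ⟨e, v, hev, he⟩ := Nat.sq_mul_squarefree (3 * c + 8 * n)
  have hpos : 0 < 3 * c + 8 * n := by omega
  have hv : v ≠ 0 := by
    rintro rfl
    rw [zero_pow (by norm_num), zero_mul] at hev
    omega
  have he0 : e ≠ 0 := he.ne_zero
  set m : ℕ := 3 * c' * ((c : ℤ) - c').natAbs with hm
  have hab : 0 < ((c : ℤ) - c').natAbs := by omega
  have habL : ((c : ℤ) - c').natAbs ≤ L := by omega
  have hm0 : 0 < m := by positivity
  have hdvd : ∀ l ∈ e.primeFactors, l ∣ m := by
    intro l hl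
    have hlp := Nat.prime_of_mem_primeFactors hl
    have hle := Nat.dvd_of_mem_primeFactors hl
    have hl3 : l ∣ 3 * c + 8 * n := by
      rw [← hev]
      exact Dvd.dvd.mul_left hle _
    have hlc := ndvd hlp hc hl3
    have hD : dd n c' ≠ 0 := by
      unfold dd
      exact mul_ne_zero (by omega) (by omega)
    have hlD : l ∣ dd n c' := by
      refine odd_dvd hlp hle he hlc (by omega) hv hD ?_
      rw [hev]
      exact hsq
    unfold dd at hlD
    rcases (Nat.Prime.dvd_mul hlp).1 hlD with h | h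
    · rw [hm, mul_assoc]
      exact Dvd.dvd.mul_left (Dvd.dvd.mul_right h _) 3
    · have h2 : (l : ℤ) ∣ 3 * ((c : ℤ) - c') := by
        have a1 : (l : ℤ) ∣ ((3 * c + 8 * n : ℕ) : ℤ) := Int.natCast_dvd_natCast.2 hl3
        have a2 : (l : ℤ) ∣ ((3 * c' + 8 * n : ℕ) : ℤ) := Int.natCast_dvd_natCast.2 h
        have a3 := dvd_sub a1 a2
        have a4 : ((3 * c + 8 * n : ℕ) : ℤ) - ((3 * c' + 8 * n : ℕ) : ℤ) = 3 * ((c : ℤ) - c') := by
          push_cast
          ring
        rwa [a4] at a3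
      have h3 : l ∣ 3 * ((c : ℤ) - c').natAbs := by
        have a5 := Int.natCast_dvd.1 h2
        rwa [Int.natAbs_mul] at a5
      have h4 : m = c' * (3 * ((c : ℤ) - c').natAbs) := by rw [hm]; ring
      rw [h4]
      exact Dvd.dvd.mul_left h3 _
  have hem : e ∣ m := by
    rw [← Nat.prod_primeFactors_of_squarefree he]
    exact Finset.prod_primes_dvd m (fun l hl => (Nat.prime_of_mem_primeFactors hl).prime) hdvd
  have heL : e ≤ 3 * L * L := by
    refine (Nat.le_of_dvd hm0 hem).trans ?_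
    rw [hm]
    exact Nat.mul_le_mul (Nat.mul_le_mul_left 3 hL') habL
  refine ⟨c * e, v, ?_, ?_, ?_⟩
  · unfold dd
    rw [← hev]
    ring
  · exact Nat.one_le_iff_ne_zero.2 (mul_ne_zero (by omega) he0)
  · calc c * e ≤ L * (3 * L * L) := Nat.mul_le_mul hL heL
      _ = 3 * L ^ 3 := by ring

end Pool.Agent.Helper21.EL
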